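import Pool.Agent.helper25.TW.Spec

/-!
# Project TW (MP_f42afa_pr), row BR1: the two models of the crossing
-/

set_option autoImplicit false

namespace TP.TW

open DP MeasureTheory Finset

theorem BR1_phi1 {n : ℕ} (p : Fin n × Fin n) :
    (phi p).1 = 2 * ((p.1 : ℕ) : ℤ) + ((p.2 : ℕ) : ℤ) := rfl

theorem BR1_phi2 {n : ℕ} (p : Fin n × Fin n) : (phi p).2 = ((p.2 : ℕ) : ℤ) := rfl

theorem BR1_adj {u v : V} : Adj u v ↔
    (u.1 - v.1 ≤ 1 ∧ v.1 - u.1 ≤ 1 ∧ u.2 - v.2 ≤ 1 ∧ v.2 - u.2 ≤ 1) ∧ ¬ (u.1 = v.1 ∧ u.2 = v.2) ∧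
      (u.1 = v.1 ∨ u.2 = v.2 ∨ (u.1 + u.2) % 2 = 0) := by
  unfold Adj sd
  rw [Int.even_iff]
  omega

theorem BR1_br_cases (z : V) : ((z.1 + z.2) % 2 = 0 ∧ br z = z) ∨
    ((z.1 + z.2) % 2 = 1 ∧ br z = (z.1 - 1, z.2)) := by
  unfold br
  by_cases h : (z.1 + z.2) % 2 = 0
  · left
    exact ⟨h, if_pos h⟩
  · right
    refine ⟨by omega, if_neg h⟩

theorem BR1_br_phi {n : ℕ} (p : Fin n × Fin n) : br (phi p) = phi p := by
  rcases BR1_br_cases (phi p) with h | h
  · exact h.2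
  · exfalso
    have h1 := h.1
    rw [BR1_phi1, BR1_phi2] at h1
    omega

theorem BR1_mem {n : ℕ} (p : Fin n × Fin n) : phi p ∈ rh ((n : ℤ) - 1) := by
  have h1 := p.1.2
  have h2 := p.2.2
  show 0 ≤ (phi p).2 ∧ (phi p).2 ≤ (n : ℤ) - 1 ∧ (phi p).2 ≤ (phi p).1 ∧
    (phi p).1 ≤ 2 * ((n : ℤ) - 1) + 1 + (phi p).2
  rw [BR1_phi1, BR1_phi2]
  omega

theorem BR1_mem' {n : ℕ} (p : Fin n × Fin n) :
    ((phi p).1 + 1, (phi p).2) ∈ rh ((n : ℤ) - 1) := by
  have h1 := p.1.2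
  have h2 := p.2.2
  show 0 ≤ (phi p).2 ∧ (phi p).2 ≤ (n : ℤ) - 1 ∧ (phi p).2 ≤ (phi p).1 + 1 ∧
    (phi p).1 + 1 ≤ 2 * ((n : ℤ) - 1) + 1 + (phi p).2
  rw [BR1_phi1, BR1_phi2]
  omega

theorem BR1_br_right {n : ℕ} (p : Fin n × Fin n) :
    br ((phi p).1 + 1, (phi p).2) = phi p := by
  rcases BR1_br_cases ((phi p).1 + 1, (phi p).2) with h | h
  · exfalso
    have h1 : ((phi p).1 + 1 + (phi p).2) % 2 = 0 := h.1
    rw [BR1_phi1, BR1_phi2] at h1
    omega
  · rw [h.2]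
    refine Prod.ext ?_ rfl
    show (phi p).1 + 1 - 1 = (phi p).1
    omega

theorem BR1_ex {n : ℕ} {z : V} (hz : z ∈ rh ((n : ℤ) - 1)) :
    ∃ q : Fin n × Fin n, phi q = br z := by
  obtain ⟨h1, h2, h3, h4⟩ := hz
  refine ⟨(⟨((z.1 - z.2) / 2).toNat, by omega⟩, ⟨z.2.toNat, by omega⟩), ?_⟩
  have e1 : (phi ((⟨((z.1 - z.2) / 2).toNat, by omega⟩ : Fin n),
      (⟨z.2.toNat, by omega⟩ : Fin n))).1 = 2 * ((z.1 - z.2) / 2) + z.2 := by
    rw [BR1_phi1]
    show 2 * ((((z.1 - z.2) / 2).toNat : ℕ) : ℤ) + ((z.2.toNat : ℕ) : ℤ) = _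
    omega
  have e2 : (phi ((⟨((z.1 - z.2) / 2).toNat, by omega⟩ : Fin n),
      (⟨z.2.toNat, by omega⟩ : Fin n))).2 = z.2 := by
    rw [BR1_phi2]
    show ((z.2.toNat : ℕ) : ℤ) = _
    omega
  rcases BR1_br_cases z with h | h
  · rw [h.2]
    refine Prod.ext ?_ ?_
    · rw [e1]
      have := h.1
      omega
    · rw [e2]
  · rw [h.2]
    refine Prod.ext ?_ ?_
    · rw [e1]
      show 2 * ((z.1 - z.2) / 2) + z.2 = z.1 - 1
      have := h.1
      omega
    · rw [e2]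

theorem BR1_col {n : ℕ} (β : V → Bool) {z : V} {q : Fin n × Fin n} (h : phi q = br z) :
    col β z = β (phi q) := by
  rw [h]
  rfl

theorem BR1_step {n : ℕ} {a b : V} (hab : Adj a b) {p q : Fin n × Fin n} (hp : phi p = br a)
    (hq : phi q = br b) : p = q ∨ (tri n).Adj p q := by
  have hadj := BR1_adj.1 hab
  have p1 := congrArg Prod.fst hp
  have p2 := congrArg Prod.snd hp
  have q1 := congrArg Prod.fst hq
  have q2 := congrArg Prod.snd hq
  rw [BR1_phi1] at p1 q1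
  rw [BR1_phi2] at p2 q2
  by_cases hpq : p = q
  · exact Or.inl hpq
  · right
    have hne : ¬ (((p.1 : ℕ) : ℤ) = ((q.1 : ℕ) : ℤ) ∧ ((p.2 : ℕ) : ℤ) = ((q.2 : ℕ) : ℤ)) := by
      rintro ⟨h1, h2⟩
      apply hpq
      refine Prod.ext (Fin.ext ?_) (Fin.ext ?_)
      · exact_mod_cast h1
      · exact_mod_cast h2
    rw [tri, SimpleGraph.fromRel_adj]
    refine ⟨hpq, ?_⟩
    rcases BR1_br_cases a with ha | ha <;> rcases BR1_br_cases b with hb | hb <;>
      rw [ha.2] at p1 p2 <;> rw [hb.2] at q1 q2 <;> have ha1 := ha.1 <;> have hb1 := hb.1 <;>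
      (try dsimp only at p1) <;> (try dsimp only at p2) <;> (try dsimp only at q1) <;>
      (try dsimp only at q2) <;> omega

theorem BR1_edge {n : ℕ} (β : V → Bool) {p q : Fin n × Fin n} (h : (tri n).Adj p q)
    (hp : β (phi p) = true) (hq : β (phi q) = true) :
    Conn (col β) true (rh ((n : ℤ) - 1)) (phi p) (phi q) := by
  have mp : phi p ∈ {w | w ∈ rh ((n : ℤ) - 1) ∧ col β w = true} := by
    refine ⟨BR1_mem p, ?_⟩
    show β (br (phi p)) = true
    rw [BR1_br_phi, hp]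
  have mq : phi q ∈ {w | w ∈ rh ((n : ℤ) - 1) ∧ col β w = true} := by
    refine ⟨BR1_mem q, ?_⟩
    show β (br (phi q)) = true
    rw [BR1_br_phi, hq]
  have mp' : ((phi p).1 + 1, (phi p).2) ∈ {w | w ∈ rh ((n : ℤ) - 1) ∧ col β w = true} := by
    refine ⟨BR1_mem' p, ?_⟩
    show β (br ((phi p).1 + 1, (phi p).2)) = true
    rw [BR1_br_right, hp]
  have mq' : ((phi q).1 + 1, (phi q).2) ∈ {w | w ∈ rh ((n : ℤ) - 1) ∧ col β w = true} := by
    refine ⟨BR1_mem' q, ?_⟩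
    show β (br ((phi q).1 + 1, (phi q).2)) = true
    rw [BR1_br_right, hq]
  rw [tri, SimpleGraph.fromRel_adj] at h
  have direct : Adj (phi p) (phi q) → Conn (col β) true (rh ((n : ℤ) - 1)) (phi p) (phi q) :=
    fun ha => ⟨mp, Relation.ReflTransGen.single ⟨ha, mq⟩⟩
  have two : ∀ w : V, w ∈ {w | w ∈ rh ((n : ℤ) - 1) ∧ col β w = true} → Adj (phi p) w →
      Adj w (phi q) → Conn (col β) true (rh ((n : ℤ) - 1)) (phi p) (phi q) :=
    fun w hw h1 h2 => ⟨mp, (Relation.ReflTransGen.single ⟨h1, hw⟩).tail ⟨h2, mq⟩⟩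
  rcases h.2 with (h | h | h) | (h | h | h)
  · refine two _ mq' (BR1_adj.2 ⟨?_, ?_, ?_⟩) (BR1_adj.2 ⟨?_, ?_, Or.inr (Or.inl rfl)⟩) <;>
      simp only [BR1_phi1, BR1_phi2] <;> omega
  · refine direct (BR1_adj.2 ?_)
    simp only [BR1_phi1, BR1_phi2]
    omega
  · refine direct (BR1_adj.2 ?_)
    simp only [BR1_phi1, BR1_phi2]
    omega
  · refine two _ mp' (BR1_adj.2 ⟨?_, ?_, Or.inr (Or.inl rfl)⟩) (BR1_adj.2 ⟨?_, ?_, ?_⟩) <;>
      simp only [BR1_phi1, BR1_phi2] <;> omega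
  · refine direct (BR1_adj.2 ?_)
    simp only [BR1_phi1, BR1_phi2]
    omega
  · refine direct (BR1_adj.2 ?_)
    simp only [BR1_phi1, BR1_phi2]
    omega

theorem BR1_walk {n : ℕ} (β : V → Bool) {a b : Fin n × Fin n} (p : (tri n).Walk a b)
    (h : ∀ v ∈ p.support, β (phi v) = true) :
    Conn (col β) true (rh ((n : ℤ) - 1)) (phi a) (phi b) := by
  induction p with
  | nil =>
    refine ⟨⟨BR1_mem _, ?_⟩, Relation.ReflTransGen.refl⟩
    show β (br (phi _)) = true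
    rw [BR1_br_phi]
    exact h _ (by simp)
  | cons hadj q ih =>
    have h1 := BR1_edge β hadj (h _ (by simp)) (h _ (by simp))
    have h2 := ih (fun v hv => h v (by simp [hv]))
    exact ⟨h1.1, h1.2.trans h2.2⟩

theorem BR1 : BR1_stmt := by
  intro n β hn
  constructor
  · rintro ⟨a, b, p, ha, hb, hp⟩
    refine ⟨phi a, phi b, ?_, ?_, BR1_walk β p hp⟩
    · rw [BR1_phi1, BR1_phi2]
      omega
    · rw [BR1_phi1, BR1_phi2]
      omega
  · rintro ⟨u, v, hu, hv, ⟨huW, hcon⟩⟩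
    obtain ⟨a, ha⟩ := BR1_ex huW.1
    have key : v ∈ {w | w ∈ rh ((n : ℤ) - 1) ∧ col β w = true} ∧
        ∀ q : Fin n × Fin n, phi q = br v →
          ∃ p : (tri n).Walk a q, ∀ x ∈ p.support, β (phi x) = true := by
      clear hv
      induction hcon with
      | refl =>
        refine ⟨huW, fun q hq => ?_⟩
        have hqa : a = q := by
          have h1 : phi a = phi q := by rw [ha, hq]
          have e1 := congrArg Prod.fst h1
          have e2 := congrArg Prod.snd h1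
          rw [BR1_phi1, BR1_phi1] at e1
          rw [BR1_phi2, BR1_phi2] at e2
          refine Prod.ext (Fin.ext ?_) (Fin.ext ?_)
          · omega
          · omega
        subst hqa
        refine ⟨SimpleGraph.Walk.nil, fun x hx => ?_⟩
        rw [SimpleGraph.Walk.support_nil, List.mem_singleton] at hx
        subst hx
        rw [← BR1_col β ha]
        exact huW.2
      | tail _ hstep ih =>
        obtain ⟨ihm, ihw⟩ := ih
        refine ⟨hstep.2, fun q hq => ?_⟩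
        obtain ⟨r, hr⟩ := BR1_ex ihm.1
        obtain ⟨p, hp⟩ := ihw r hr
        rcases BR1_step hstep.1 hr hq with h | h
        · subst h
          exact ⟨p, hp⟩
        · refine ⟨p.concat h, fun x hx => ?_⟩
          rw [SimpleGraph.Walk.support_concat, List.mem_append, List.mem_singleton] at hx
          rcases hx with hx | hx
          · exact hp x hx
          · subst hx
            rw [← BR1_col β hq]
            exact hstep.2.2
    obtain ⟨b, hb⟩ := BR1_ex key.1.1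
    obtain ⟨p, hp⟩ := key.2 b hb
    refine ⟨a, b, p, ?_, ?_, hp⟩
    · have e1 := congrArg Prod.fst ha
      have e2 := congrArg Prod.snd ha
      rw [BR1_phi1] at e1
      rw [BR1_phi2] at e2
      rcases BR1_br_cases u with h | h
      · rw [h.2] at e1 e2
        omega
      · rw [h.2] at e1 e2
        dsimp only at e1 e2
        omega
    · have e1 := congrArg Prod.fst hb
      have e2 := congrArg Prod.snd hb
      rw [BR1_phi1] at e1
      rw [BR1_phi2] at e2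
      have h4 : v.1 ≤ 2 * ((n : ℤ) - 1) + 1 + v.2 := key.1.1.2.2.2
      rcases BR1_br_cases v with h | h
      · rw [h.2] at e1 e2
        omega
      · rw [h.2] at e1 e2
        dsimp only at e1 e2
        have := h.1
        omega

end TP.TW
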